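import Pool.Agent.Helper86.AP.Goals
import Pool.Agent.Helper96.PX.Dict

/-!
# Packet AP-MRG (MP_bec853_al): letters without dictionary words are merged
-/

set_option autoImplicit false
set_option linter.unusedSectionVars false

namespace Pool.Agent.Helper7.AP

open Pool.Agent.Helper35.PP Pool.Agent.Helper35.PX Pool.Agent.Helper86.AP

section lists

variable {β : Type}

theorem flatten_shift_aux : ∀ (m : ℕ) (X Z : Fin (m + 1) → List β),
    (List.ofFn fun k => X k ++ Z k).flatten =
      X 0 ++ (List.ofFn fun k : Fin m => Z k.castSucc ++ X k.succ).flatten ++ Z (Fin.last m) := by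
  intro m
  induction m with
  | zero =>
    intro X Z
    simp [List.ofFn_succ]
  | succ m ih =>
    intro X Z
    rw [List.ofFn_succ, List.flatten_cons, ih (fun k => X k.succ) (fun k => Z k.succ)]
    rw [List.ofFn_succ (f := fun k : Fin (m + 1) => Z k.castSucc ++ X k.succ), List.flatten_cons]
    have h1 : (fun k : Fin m => Z k.castSucc.succ ++ X k.succ.succ) =
        fun k : Fin m => Z k.succ.castSucc ++ X k.succ.succ := by
      funext k
      rw [Fin.succ_castSucc]
    rw [h1]
    simp

theorem flatten_shift (m : ℕ) (X Y : Fin (m + 1) → List β) :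
    (List.ofFn fun k => X k ++ Y (k + 1)).flatten =
      X 0 ++ (List.ofFn fun k : Fin m => Y k.succ ++ X k.succ).flatten ++ Y 0 := by
  have h := flatten_shift_aux m X (fun k => Y (k + 1))
  rw [h]
  simp [Fin.coeSucc_eq_succ, Fin.last_add_one]

end lists

section main

variable {α : Type}

theorem lin_append (i : α) (A D : List (α × Bool)) (x y : List (Rec α)) :
    lin i A D (x ++ y) = lin i A D x ++ lin i A D y := by
  induction x with
  | nil => rfl
  | cons e x ih => simp [lin, ih]

theorem lin_eq (i : α) (A D : List (α × Bool)) (L : List (Rec α)) :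
    lin i A D L = (L.map fun e => lt A D e ++ ((i, e.1) :: (rt A D e ++ e.2.2.2))).flatten := by
  induction L with
  | nil => rfl
  | cons e x ih => simp [lin, ih]

theorem cyc_rot (i : α) (A D : List (α × Bool)) (e : Rec α) (l : List (Rec α)) :
    cyc i A D e l ~r lin i A D (e :: l) := by
  have h : lin i A D (e :: l) = lt A D e ++ (((i, e.1) :: (rt A D e ++ e.2.2.2)) ++ lin i A D l) := by
    simp [lin]
  rw [h]
  exact List.isRotated_append

theorem lin_rot (i : α) (A D : List (α × Bool)) (x y : List (Rec α)) :
    lin i A D (x ++ y) ~r lin i A D (y ++ x) := by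
  rw [lin_append, lin_append]
  exact List.isRotated_append

theorem mem_lin (i : α) (A D : List (α × Bool)) {L : List (Rec α)} {r : Rec α} (h : r ∈ L) :
    r.2.2.2 <:+: lin i A D L := by
  obtain ⟨x, y, rfl⟩ := List.append_of_mem h
  rw [lin_append]
  refine ⟨lin i A D x ++ (lt A D r ++ ((i, r.1) :: rt A D r)), lin i A D y, ?_⟩
  simp [lin]

variable [Fintype α] [DecidableEq α]

/-- merging of the letters without dictionary words -/
theorem merge {ι : Type} (i : α) (bad : (α × Bool) → (α × Bool) → Prop) (A D : List (α × Bool))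
    (s : ι → Bool) (x y : ι → ℕ) (v : ι → List (α × Bool)) (hv : ∀ k, NB i bad (v k)) :
    ∀ (I : List ι) (t : List (α × Bool)), NB i bad t →
    ∃ (t' : List (α × Bool)) (J : List (ι × List (α × Bool))), NB i bad t' ∧
      (∀ q ∈ J, NB i bad q.2 ∧ 0 < x q.1 + y q.1) ∧
      (∀ k ∈ I, 0 < x k + y k → ∃ w, (k, w) ∈ J) ∧ (∀ q ∈ J, q.1 ∈ I) ∧
      t ++ lin i A D (I.map fun k => (s k, x k, y k, v k)) =
        t' ++ lin i A D (J.map fun q => (s q.1, x q.1, y q.1, q.2)) := by
  intro I
  induction I with
  | nil =>
    intro t ht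
    exact ⟨t, [], ht, by simp, by simp, by simp, rfl⟩
  | cons k I ih =>
    intro t ht
    by_cases hk : 0 < x k + y k
    · obtain ⟨t', J, h1, h2, h3, h4, h5⟩ := ih (v k) (hv k)
      refine ⟨t, (k, t') :: J, ht, ?_, ?_, ?_, ?_⟩
      · intro q hq
        rcases List.mem_cons.1 hq with rfl | hq
        · exact ⟨h1, hk⟩
        · exact h2 q hq
      · intro k' hk' hpos
        rcases List.mem_cons.1 hk' with rfl | hk'
        · exact ⟨t', List.mem_cons_self⟩
        · obtain ⟨w, hw⟩ := h3 k' hk' hpos
          exact ⟨w, List.mem_cons_of_mem _ hw⟩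
      · intro q hq
        rcases List.mem_cons.1 hq with rfl | hq
        · exact List.mem_cons_self
        · exact List.mem_cons_of_mem _ (h4 q hq)
      · simp only [List.map_cons, lin, rt, lt]
        simp only [List.append_assoc, List.cons_append]
        rw [h5]
    · have hx : x k = 0 := by omega
      have hy : y k = 0 := by omega
      obtain ⟨t', J, h1, h2, h3, h4, h5⟩ := ih (t ++ (i, s k) :: v k)
        (Pool.Agent.Helper96.PX.NB_extend ht (hv k))
      refine ⟨t', J, h1, h2, ?_, ?_, ?_⟩
      · intro k' hk' hpos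
        rcases List.mem_cons.1 hk' with rfl | hk'
        · exact absurd hpos hk
        · exact h3 k' hk' hpos
      · intro q hq
        exact List.mem_cons_of_mem _ (h4 q hq)
      · rw [← h5]
        simp [lin, rt, lt, hx, hy, FreeGroup.invRev]

/-- positions of the marks -/
theorem mark_of {ι : Type} (f : Rec α → ℕ) (g : ι → ℕ) (R : ι × List (α × Bool) → Rec α)
    (hR : ∀ q, f (R q) = g q.1) (L : List (ι × List (α × Bool))) (hL : L ≠ []) (X Y : ℕ)
    (j0 j1 : ι) (hj : j1 ≠ j0) (h0 : g j0 = X) (h1 : g j1 = Y) (hmax : ∀ j, g j ≤ X)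
    (hpos : ∀ k, 0 < g k → ∃ w, (k, w) ∈ L) : Mark f (L.map R) X Y := by
  have hget : ∀ k, 0 < g k → ∃ p : Fin (L.map R).length, ∃ p' : Fin L.length,
      p.val = p'.val ∧ (L.get p').1 = k ∧ f ((L.map R).get p) = g k := by
    intro k hk
    obtain ⟨w, hw⟩ := hpos k hk
    obtain ⟨p', hp'⟩ := List.mem_iff_get.1 hw
    refine ⟨⟨p'.val, by rw [List.length_map]; exact p'.2⟩, p', rfl, by rw [hp'], ?_⟩
    have : (L.map R).get ⟨p'.val, by rw [List.length_map]; exact p'.2⟩ = R (L.get p') := by
      simp
    rw [this, hp', hR]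
  by_cases hX : X = 0
  · obtain ⟨q, L', rfl⟩ := List.exists_cons_of_ne_nil hL
    refine ⟨⟨0, by simp⟩, ?_, Or.inl ?_⟩
    · have h := hmax q.1
      simp only [List.map_cons, List.get_eq_getElem, List.getElem_cons_zero]
      rw [hR]
      omega
    · have h := hmax j1
      omega
  · obtain ⟨p, p', hpp, hp1, hp2⟩ := hget j0 (by omega)
    refine ⟨p, by rw [hp2, h0], ?_⟩
    by_cases hY : Y = 0
    · exact Or.inl hY
    · right
      obtain ⟨r, r', hrr, hr1, hr2⟩ := hget j1 (by omega)
      refine ⟨r, ?_, by rw [hr2, h1]⟩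
      rintro rfl
      apply hj
      have : r' = p' := Fin.ext (by rw [← hrr, ← hpp])
      rw [← hr1, ← hp1, this]

theorem NB_of_Lang {i : α} {A B : Finset (α × Bool)} {v : List (α × Bool)}
    (hv : v ∈ Lang (Zi i) A B) : NB i (bd A B) v := by
  intro a x y b hab _ _ hbad
  have h := hv.2
  rw [hab, List.isChain_append] at h
  have h2 := h.2.1
  rw [List.isChain_cons_cons] at h2
  exact h2.1.2 hbad

theorem Zr_take {Λ : Finset (α × Bool)} {a : List (α × Bool)} (ha : a ∈ Zr Λ) (l : ℕ) :
    a.take l ∈ Zr Λ :=
  ⟨fun x hx => ha.1 x (List.mem_of_mem_take hx), ha.2.take l⟩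

end main

/-- Packet MRG. -/
theorem tMRG : S_MRG := by
  intro α _ _ i A B SS M m s b P v a d l1 l2 m1 m2 hSS ha hd hl1 hm1 hb hPa hPd hPl hPm
    ⟨j0, j1, hj, hj0, hj1⟩ ⟨k0, k1, hk, hk0, hk1⟩ hADM hrot
  classical
  have hl2 : l2 ≤ l1 := by rw [← hj1]; exact hPl j1
  have hm2 : m2 ≤ m1 := by rw [← hk1]; exact hPm k1
  set A' := a.take l1 with hA'
  set D' := d.take m1 with hD'
  have hA'l : A'.length = l1 := by rw [hA', List.length_take]; omega
  have hD'l : D'.length = m1 := by rw [hD', List.length_take]; omega
  have hPt : ∀ k, A'.take (P (k, true)).length = P (k, true) := by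
    intro k
    rw [hA', List.take_take, min_eq_left (hPl k)]
    exact (List.prefix_iff_eq_take.1 (hPa k)).symm
  have hPf : ∀ k, D'.take (P (k, false)).length = P (k, false) := by
    intro k
    rw [hD', List.take_take, min_eq_left (hPm k)]
    exact (List.prefix_iff_eq_take.1 (hPd k)).symm
  set R : Fin (m + 1) × List (α × Bool) → Rec α :=
    fun q => (s q.1, (P (q.1, true)).length, (P (q.1, false)).length, q.2) with hR
  set R' : Fin (m + 1) → Rec α := fun k => R (k, v k) with hR'
  have hrt : ∀ k w, rt A' D' (R (k, w)) = P (k, s k) := by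
    intro k w
    simp only [rt, hR]
    cases hs : s k with
    | true => simpa using hPt k
    | false => simpa using hPf k
  have hlt : ∀ k w, lt A' D' (R (k, w)) = FreeGroup.invRev (P (k, !s k)) := by
    intro k w
    simp only [lt, hR]
    cases hs : s k with
    | true => simp [hPf k]
    | false => simp [hPt k]
  have hcw : cw i m s b = cyc i A' D' (R' 0) (List.ofFn fun k : Fin m => R' k.succ) := by
    unfold cw cyc
    have h1 : (fun k => (i, s k) :: b k) = fun k => ((i, s k) :: (P (k, s k) ++ v k)) ++
        (fun j => lt A' D' (R' j)) (k + 1) := by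
      funext k
      simp only [hR', hlt]
      rw [(hb k).2]
      simp
    rw [h1, flatten_shift m (fun k => (i, s k) :: (P (k, s k) ++ v k)) (fun j => lt A' D' (R' j))]
    rw [lin_eq, List.map_ofFn]
    have h2 : (fun k : Fin m => lt A' D' (R' k.succ) ++ ((i, s k.succ) :: (P (k.succ, s k.succ) ++ v k.succ)))
        = (fun e => lt A' D' e ++ ((i, e.1) :: (rt A' D' e ++ e.2.2.2))) ∘
          fun k : Fin m => R' k.succ := by
      funext k
      simp only [Function.comp, hR', hrt]
      rfl
    rw [h2]
    simp only [hR', hrt]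
    rfl
  have hNBv : ∀ k, NB i (bd A B) (v k) := fun k => NB_of_Lang (hb k).1
  by_cases hz : ∀ k, (P (k, true)).length + (P (k, false)).length = 0
  · -- no dictionary words at all
    left
    refine ⟨hrot _ (List.IsRotated.refl _), ?_⟩
    obtain ⟨t', J, h1, h2, h3, h4, h5⟩ := merge i (bd A B) A' D' s
      (fun k => (P (k, true)).length) (fun k => (P (k, false)).length) v hNBv
      (List.ofFn fun k : Fin m => k.succ) (v 0) (hNBv 0)
    have hJ : J = [] := by
      rcases J with _ | ⟨q, J⟩
      · rfl
      · exfalso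
        have h := (h2 q List.mem_cons_self).2
        have h' := hz q.1
        omega
    have hP0 : ∀ k t, P (k, t) = [] := by
      intro k t
      have h := hz k
      cases t with
      | true => exact List.length_eq_zero_iff.1 (by omega)
      | false => exact List.length_eq_zero_iff.1 (by omega)
    have hE : cw i m s b = [] ++ (i, s 0) :: t' := by
      rw [hcw]
      unfold cyc
      simp only [hR', hrt, hlt, hP0]
      have h6 : (List.ofFn fun k : Fin m => k.succ).map
          (fun k => (s k, (P (k, true)).length, (P (k, false)).length, v k)) =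
          List.ofFn fun k : Fin m => R (k.succ, v k.succ) := by
        rw [List.map_ofFn]
        rfl
      rw [h6, hJ] at h5
      simp only [List.map_nil, lin, List.append_nil] at h5
      rw [← h5]
      simp [hR, FreeGroup.invRev]
    rw [hE]
    exact Pool.Agent.Helper96.PX.NB_extend Pool.Agent.Helper96.PX.NB_nil h1
  · -- rotate to a letter with a dictionary word
    right
    push Not at hz
    obtain ⟨n0, hn0⟩ := hz
    obtain ⟨X, Y, hXY⟩ := List.append_of_mem (List.mem_finRange n0)
    obtain ⟨t', J, h1, h2, h3, h4, h5⟩ := merge i (bd A B) A' D' s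
      (fun k => (P (k, true)).length) (fun k => (P (k, false)).length) v hNBv
      (Y ++ X) (v n0) (hNBv n0)
    have h5' : v n0 ++ lin i A' D' ((Y ++ X).map R') = t' ++ lin i A' D' (J.map R) := h5
    have hfin : List.ofFn R' = (X ++ n0 :: Y).map R' := by
      rw [← hXY]
      exact List.ofFn_eq_map
    have hc1 : cyc i A' D' (R (n0, t')) (J.map R) = cyc i A' D' (R' n0) ((Y ++ X).map R') := by
      have e1 : cyc i A' D' (R (n0, t')) (J.map R) =
          (i, s n0) :: (P (n0, s n0) ++ (t' ++ lin i A' D' (J.map R))) ++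
            FreeGroup.invRev (P (n0, !s n0)) := by
        unfold cyc
        rw [hrt, hlt]
        simp [hR]
      have e2 : cyc i A' D' (R' n0) ((Y ++ X).map R') =
          (i, s n0) :: (P (n0, s n0) ++ (v n0 ++ lin i A' D' ((Y ++ X).map R'))) ++
            FreeGroup.invRev (P (n0, !s n0)) := by
        unfold cyc
        simp only [hR']
        rw [hrt, hlt]
        simp [hR]
      rw [e1, e2, h5']
    have hrotc : cyc i A' D' (R (n0, t')) (J.map R) ~r cw i m s b := by
      rw [hc1, hcw]
      refine (cyc_rot _ _ _ _ _).trans ?_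
      refine List.IsRotated.trans ?_ (cyc_rot _ _ _ _ _).symm
      have h7 : R' 0 :: List.ofFn (fun k : Fin m => R' k.succ) = List.ofFn R' := by
        rw [List.ofFn_succ]
      rw [h7, hfin]
      have h8 : R' n0 :: (Y ++ X).map R' = (n0 :: Y).map R' ++ X.map R' := by simp
      rw [h8, List.map_append]
      exact lin_rot _ _ _ _ _
    have hcSS : cyc i A' D' (R (n0, t')) (J.map R) ∈ SS := hrot _ hrotc
    refine ⟨_, hrotc, A', a.take l2, D', d.take m2, ⟨Zr_take ha l1, Zr_take hd m1, hADM⟩,
      R (n0, t'), J.map R, ?_, ?_, ?_, rfl⟩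
    · -- the records
      have hfac : ∀ r ∈ R (n0, t') :: J.map R, r.2.2.2 ∈ SS := by
        intro r hr
        rcases List.mem_cons.1 hr with rfl | hr
        · apply hSS ((i, s n0) :: rt A' D' (R (n0, t'))) _
            (lin i A' D' (J.map R) ++ lt A' D' (R (n0, t')))
          have : cyc i A' D' (R (n0, t')) (J.map R) = ((i, s n0) :: rt A' D' (R (n0, t'))) ++
              (R (n0, t')).2.2.2 ++ (lin i A' D' (J.map R) ++ lt A' D' (R (n0, t'))) := by
            unfold cyc
            simp [hR]
          rw [← this]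
          exact hcSS
        · obtain ⟨u, w, huw⟩ := mem_lin i A' D' hr
          apply hSS (((i, s n0) :: (rt A' D' (R (n0, t')) ++ t')) ++ u) _
            (w ++ lt A' D' (R (n0, t')))
          have : cyc i A' D' (R (n0, t')) (J.map R) =
              (((i, s n0) :: (rt A' D' (R (n0, t')) ++ t')) ++ u) ++ r.2.2.2 ++
                (w ++ lt A' D' (R (n0, t'))) := by
            unfold cyc
            rw [← huw]
            simp [hR]
          rw [← this]
          exact hcSS
      intro r hr
      have hSSr := hfac r hr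
      rcases List.mem_cons.1 hr with rfl | hr
      · refine ⟨?_, ?_, ?_, hSSr, h1⟩
        · simp only [hR]; omega
        · rw [hA'l]; exact hPl n0
        · rw [hD'l]; exact hPm n0
      · obtain ⟨q, hq, rfl⟩ := List.mem_map.1 hr
        refine ⟨(h2 q hq).2, ?_, ?_, hSSr, (h2 q hq).1⟩
        · rw [hA'l]; exact hPl q.1
        · rw [hD'l]; exact hPm q.1
    · -- first mark
      rw [hA'l, List.length_take, min_eq_left (le_trans hl2 hl1)]
      have h9 : R (n0, t') :: J.map R = ((n0, t') :: J).map R := by simp
      rw [h9]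
      apply mark_of (fun r => r.2.1) (fun k => (P (k, true)).length) R (fun q => rfl) _ (by simp)
        l1 l2 j0 j1 hj hj0 hj1 hPl
      intro k hkpos
      by_cases hkn : k = n0
      · exact ⟨t', by rw [hkn]; exact List.mem_cons_self⟩
      · have hmem : k ∈ X ++ n0 :: Y := by rw [← hXY]; exact List.mem_finRange k
        have hmem' : k ∈ Y ++ X := by
          simp only [List.mem_append, List.mem_cons] at hmem ⊢
          tauto
        obtain ⟨w, hw⟩ := h3 k hmem' (by omega)
        exact ⟨w, List.mem_cons_of_mem _ hw⟩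
    · -- second mark
      rw [hD'l, List.length_take, min_eq_left (le_trans hm2 hm1)]
      have h9 : R (n0, t') :: J.map R = ((n0, t') :: J).map R := by simp
      rw [h9]
      apply mark_of (fun r => r.2.2.1) (fun k => (P (k, false)).length) R (fun q => rfl) _ (by simp)
        m1 m2 k0 k1 hk hk0 hk1 hPm
      intro k hkpos
      by_cases hkn : k = n0
      · exact ⟨t', by rw [hkn]; exact List.mem_cons_self⟩
      · have hmem : k ∈ X ++ n0 :: Y := by rw [← hXY]; exact List.mem_finRange k
        have hmem' : k ∈ Y ++ X := by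
          simp only [List.mem_append, List.mem_cons] at hmem ⊢
          tauto
        obtain ⟨w, hw⟩ := h3 k hmem' (by omega)
        exact ⟨w, List.mem_cons_of_mem _ hw⟩

end Pool.Agent.Helper7.AP
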